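import Mathlib
import Pool.Agent.Lib_f73150.Basic

/-!
For every `k ≥ 2` such that neither `k` nor `k - 1` is prime, there are arbitrarily large `m`
for which the interval `(m, m+k]` contains a complete sequence with at least `π(k) + 2` terms.
(The first such `k` is `9`.)
-/

namespace Pool.Agent.Results.MP_f73150_nt.CompositePairs

open Pool.Agent.Lib_f73150

theorem result (k : ℕ) (hk : 2 ≤ k) (h1 : ¬ k.Prime) (h2 : ¬ (k - 1).Prime) (L : ℕ) :
    ∃ m : ℕ, L ≤ m ∧ ∃ A : Finset ℕ,
      IsComplete m k A ∧ Nat.primeCounting k + 2 ≤ A.card := by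
  classical
  have hk4 : 4 ≤ k := by
    rcases Nat.lt_or_ge k 4 with h | h
    · interval_cases k
      · exact absurd Nat.prime_two h1
      · exact absurd Nat.prime_three h1
    · exact h
  obtain ⟨v, rfl⟩ : ∃ v, k = 1 + v + 1 := ⟨k - 2, by omega⟩
  -- the set of primes up to v
  let P : Finset ℕ := (Finset.range (v + 1)).filter Nat.Prime
  have hPcard : P.card = Nat.primeCounting (1 + v + 1) := by
    have e1 : Nat.primeCounting v = P.card := by
      rw [Nat.primeCounting, Nat.primeCounting', Nat.count_eq_card_filter_range]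
    have e2 : Nat.primeCounting (1 + v + 1) = Nat.primeCounting v := by
      rw [Nat.primeCounting, Nat.primeCounting, Nat.primeCounting']
      have a1 : 1 + v + 1 + 1 = (v + 1 + 1) + 1 := by ring
      rw [a1, Nat.count_succ, Nat.count_succ]
      have b1 : ¬ (v + 1 + 1).Prime := by
        have : v + 1 + 1 = 1 + v + 1 := by ring
        rwa [this]
      have b2 : ¬ (v + 1).Prime := by
        have : v + 1 = 1 + v + 1 - 1 := by omega
        rwa [this]
      rw [if_neg b1, if_neg b2, Nat.add_zero, Nat.add_zero]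
    rw [e2, e1]
  let S : Finset ℤ := insert (-1) (insert 1 (P.image (fun p : ℕ => (p : ℤ))))
  have hPimg : (P.image (fun p : ℕ => (p : ℤ))).card = P.card :=
    Finset.card_image_of_injective _ (fun a b h => by exact_mod_cast h)
  have hmemP : ∀ p ∈ P, p.Prime ∧ p ≤ v := by
    intro p hp
    simp only [P, Finset.mem_filter, Finset.mem_range] at hp
    exact ⟨hp.2, by omega⟩
  have h1P : (1 : ℤ) ∉ P.image (fun p : ℕ => (p : ℤ)) := by
    intro h
    obtain ⟨p, hp, hp1⟩ := Finset.mem_image.1 h
    have := (hmemP p hp).1.one_lt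
    have hp1' : p = 1 := by exact_mod_cast hp1
    omega
  have h2P : (-1 : ℤ) ∉ insert (1 : ℤ) (P.image (fun p : ℕ => (p : ℤ))) := by
    intro h
    rcases Finset.mem_insert.1 h with h | h
    · omega
    · obtain ⟨p, hp, hp1⟩ := Finset.mem_image.1 h
      omega
  have hScard : S.card = P.card + 2 := by
    simp only [S]
    rw [Finset.card_insert_of_notMem h2P, Finset.card_insert_of_notMem h1P, hPimg]
  have hSmem : ∀ s ∈ S, s = -1 ∨ s = 1 ∨ ∃ q : ℕ, q.Prime ∧ q ≤ v ∧ s = q := by
    intro s hs
    simp only [S, Finset.mem_insert, Finset.mem_image] at hs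
    rcases hs with h | h | ⟨q, hq, rfl⟩
    · exact Or.inl h
    · exact Or.inr (Or.inl h)
    · exact Or.inr (Or.inr ⟨q, (hmemP q hq).1, (hmemP q hq).2, rfl⟩)
  have hSI : ∀ s ∈ S, -((1 : ℕ) : ℤ) ≤ s ∧ s ≤ (v : ℤ) := by
    intro s hs
    rcases hSmem s hs with rfl | rfl | ⟨q, -, hqv, rfl⟩
    · constructor <;> push_cast <;> omega
    · constructor
      · norm_num
      · have : 1 ≤ v := by omega
        exact_mod_cast this
    · constructor
      · push_cast; omega
      · exact_mod_cast hqv
  have hcl : ∀ p : ℕ, p.Prime → p ≤ 1 + v → ∃ r : ℤ, ∀ s ∈ S, ∀ t ∈ S,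
      (p : ℤ) ∣ (s - r) → (p : ℤ) ∣ (t - r) → s = t := by
    intro p hp _
    refine ⟨0, ?_⟩
    have aux : ∀ s ∈ S, (p : ℤ) ∣ s - 0 → s = p := by
      intro s hs hd
      rw [sub_zero] at hd
      rcases hSmem s hs with rfl | rfl | ⟨q, hq, -, rfl⟩
      · exfalso
        have : (p : ℤ) ∣ 1 := by
          have := hd.neg_right; simpa using this
        have : p ∣ 1 := by exact_mod_cast this
        exact hp.one_lt.ne' (Nat.dvd_one.1 this)
      · exfalso
        have : p ∣ 1 := by exact_mod_cast hd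
        exact hp.one_lt.ne' (Nat.dvd_one.1 this)
      · have : p ∣ q := by exact_mod_cast hd
        rw [(Nat.prime_dvd_prime_iff_eq hp hq).1 this]
    intro s hs t ht hsd htd
    rw [aux s hs hsd, aux t ht htd]
  obtain ⟨m, hm, A, hA, hcard⟩ := exists_complete_of_classes 1 v S hSI hcl L
  exact ⟨m, hm, A, hA, by rw [← hPcard]; omega⟩

end Pool.Agent.Results.MP_f73150_nt.CompositePairs
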